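import Pool.Agent.Helper13.SqN5Base

/-!
Module N5 of MP_a03157_co: the families G1, G2, G3, G4.
-/

open scoped Real

namespace Pool.Agent.Helper13.SqN5

open Pool.Agent.Helper27.Sq

variable {n : ℕ} {a t X th : Fin 3 → ℝ} {M D : Fin 3 → Fin 3 → ℕ}

theorem fin3 : ∀ j : Fin 3, j = 0 ∨ j = 1 ∨ j = 2 := by decide

/-- a linear relation with rational coefficients -/
theorem lin {x : ℝ} (hx : ¬ ∃ q : ℚ, (q : ℝ) = x) (u v : ℚ) (h : (u : ℝ) * x = v) :
    u = 0 ∧ v = 0 := by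
  by_cases hu : u = 0
  · subst hu
    have : (v : ℝ) = 0 := by rw [← h]; simp
    exact ⟨rfl, by exact_mod_cast this⟩
  · exfalso
    apply hx
    have hu' : (u : ℝ) ≠ 0 := by exact_mod_cast hu
    refine ⟨v / u, ?_⟩
    push_cast
    rw [← h]
    field_simp

theorem triple {x y : ℝ} (hx : 0 < x) (hy : 0 < y) (hxq : ∃ q : ℚ, (q : ℝ) = x)
    (hyq : ∃ q : ℚ, (q : ℝ) = y) (h : y ^ 2 = x ^ 2 + x + 1) :
    ∃ p b k : ℕ, 0 < p ∧ 0 < b ∧ 0 < k ∧ x = p / b ∧ y = k / b ∧
      k ^ 2 = p ^ 2 + p * b + b ^ 2 := by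
  obtain ⟨q, rfl⟩ := hxq
  obtain ⟨r, rfl⟩ := hyq
  have hq : 0 < q := by exact_mod_cast hx
  have hr : 0 < r := by exact_mod_cast hy
  have hqn : 0 < q.num := Rat.num_pos.2 hq
  have hrn : 0 < r.num := Rat.num_pos.2 hr
  have e1 : ((q.num.toNat : ℕ) : ℝ) = q.num := by
    have : ((q.num.toNat : ℕ) : ℤ) = q.num := Int.toNat_of_nonneg hqn.le
    exact_mod_cast this
  have e2 : ((r.num.toNat : ℕ) : ℝ) = r.num := by
    have : ((r.num.toNat : ℕ) : ℤ) = r.num := Int.toNat_of_nonneg hrn.le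
    exact_mod_cast this
  have dq : ((q.den : ℕ) : ℝ) ≠ 0 := by exact_mod_cast q.den_nz
  have dr : ((r.den : ℕ) : ℝ) ≠ 0 := by exact_mod_cast r.den_nz
  have f1 : (q : ℝ) = ((q.num.toNat * r.den : ℕ) : ℝ) / ((q.den * r.den : ℕ) : ℝ) := by
    push_cast
    rw [e1, Rat.cast_def]
    field_simp
  have f2 : (r : ℝ) = ((r.num.toNat * q.den : ℕ) : ℝ) / ((q.den * r.den : ℕ) : ℝ) := by
    push_cast
    rw [e2, Rat.cast_def]
    field_simp
  have hb : 0 < q.den * r.den := Nat.mul_pos q.den_pos r.den_pos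
  refine ⟨q.num.toNat * r.den, q.den * r.den, r.num.toNat * q.den, ?_, hb, ?_, f1, f2, ?_⟩
  · exact Nat.mul_pos (by omega) r.den_pos
  · exact Nat.mul_pos (by omega) q.den_pos
  · generalize q.num.toNat * r.den = p at *
    generalize r.num.toNat * q.den = k at *
    generalize q.den * r.den = b at *
    rw [f1, f2] at h
    have hb' : (b : ℝ) ≠ 0 := by exact_mod_cast hb.ne'
    field_simp at h
    have h5 : (k : ℝ) ^ 2 = p ^ 2 + p * b + b ^ 2 := by linear_combination h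
    exact_mod_cast h5

theorem not_sq (hn : ¬ IsSquare n) (R : ℚ) (f : ℕ) (h : (n : ℝ) = (R : ℝ) ^ 2 * f) :
    ¬ IsSquare f := by
  rintro ⟨m, rfl⟩
  apply hn
  rw [← Rat.isSquare_natCast_iff]
  refine ⟨R * m, ?_⟩
  have : ((n : ℚ) : ℝ) = ((R * m * (R * m) : ℚ) : ℝ) := by
    push_cast
    rw [h]
    push_cast
    ring
  exact_mod_cast this

/-- `a + 1/2 < c < a + 1` -/
theorem bounds {x y : ℝ} (hx : 0 < x) (hy : 0 < y) (h : y ^ 2 = x ^ 2 + x + 1) :
    0 < 2 * y - 2 * x - 1 ∧ y < x + 1 := by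
  constructor
  · nlinarith
  · nlinarith

theorem G1 (F : Facts n a t X th M D) (hn : ¬ IsSquare n)
    (hX : Function.Injective X)
    (hr : ¬ (∃ d : ℕ, 0 < d ∧ ∀ j, ∃ k : ℤ, t j * d = k * π)) (ha1 : a 1 = 1)
    (hM : M = ![![3,0,0],![0,2,0],![0,1,0]]) : ExcX X := by
  obtain ⟨hs, h2⟩ := angles F (by rw [hM]; rfl) (by rw [hM]; rfl) (by rw [hM]; rfl)
  obtain ⟨κ, hκ, hj, f0, f1, hc, hsn, hcs⟩ := trig F hs h2
  obtain ⟨κ', hκ', hk⟩ := F.sin_th
  have hN := count F hj hk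
  obtain ⟨K1, hK1⟩ := col1 F hs h2 hr
  obtain ⟨K2, hK2⟩ := col2 F hs h2 hr
  have M00 : M 0 0 = 3 := by rw [hM]; rfl
  have M01 : M 0 1 = 0 := by rw [hM]; rfl
  have M02 : M 0 2 = 0 := by rw [hM]; rfl
  have M10 : M 1 0 = 0 := by rw [hM]; rfl
  have M11 : M 1 1 = 2 := by rw [hM]; rfl
  have M12 : M 1 2 = 0 := by rw [hM]; rfl
  have M20 : M 2 0 = 0 := by rw [hM]; rfl
  have M21 : M 2 1 = 1 := by rw [hM]; rfl
  have M22 : M 2 2 = 0 := by rw [hM]; rfl
  have th0 : th 0 = 3 * t 0 := by rw [F.ang 0, M00, M01, M02]; push_cast; ring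
  have th1 : th 1 = 2 * t 1 := by rw [F.ang 1, M10, M11, M12]; push_cast; ring
  have th2 : th 2 = t 1 := by rw [F.ang 2, M20, M21, M22]; push_cast; ring
  rw [M10, M00] at hK1
  rw [M11, M01] at hK2
  have ha0 := F.a_pos 0
  have ha2 := F.a_pos 2
  rw [ha1] at f0 f1 hc hN hK1 hK2
  have k0 := hk 0
  have k1 := hk 1
  have k2 := hk 2
  rw [th0, Real.sin_three_mul, hj] at k0
  rw [th1, Real.sin_two_mul, hj, ha1] at k1
  rw [th2, hj, ha1] at k2
  have s0 := Real.sin_sq_add_cos_sq (t 0)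
  rw [hj 0] at s0
  have hX0 := F.X_pos 0
  have hX1 := F.X_pos 1
  have hX2 := F.X_pos 2
  have S0 := F.sid 0
  have S1 := F.sid 1
  have S2 := F.sid 2
  rw [ha1] at S0 S1 S2
  have hce := F.ce 0
  generalize Real.cos (t 0) = u at *
  generalize Real.cos (t 1) = w at *
  generalize a 0 = x at *
  generalize a 2 = y at *
  have hc' : y ^ 2 = x ^ 2 + x + 1 := by linear_combination hc
  obtain ⟨b1, b2⟩ := bounds ha0 ha2 hc'
  have y1 : 1 < y := by
    have h5 : 1 < y ^ 2 := by rw [hc']; have := mul_pos ha0 ha0; linarith [sq x]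
    exact (one_lt_sq_iff₀ ha2.le).1 h5
  obtain ⟨R, hR⟩ : ∃ R : ℝ, R = κ / (κ' * y ^ 2) := ⟨_, rfl⟩
  have hRpos : 0 < R := by rw [hR]; positivity
  have hκR : κ = R * κ' * y ^ 2 := by rw [hR]; field_simp
  have X0e : X 0 = R * (3 * x * (x + 1)) := by
    rw [hR]
    have : κ' * X 0 * y ^ 2 = 3 * κ * x * (x + 1) := by
      rw [← k0]
      have h4 : y ^ 2 * (4 * u ^ 2) = (2 + x) ^ 2 := by
        linear_combination (2 * y * u + (2 + x)) * f0
      linear_combination (-4 * κ * x * y ^ 2) * s0 + κ * x * h4 - κ * x * hc'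
    field_simp
    linear_combination this
  have X1e : X 1 = R * (y * (2 * x + 1)) := by
    rw [hR]
    have : κ' * X 1 * y = κ * (2 * x + 1) := by
      rw [← k1]; linear_combination κ * f1
    field_simp
    linear_combination this
  have X2e : X 2 = R * y ^ 2 := by
    rw [hR]
    field_simp
    linear_combination -k2
  rw [X0e, X1e, X2e] at hK1 hK2 hN
  have hcount : 3 * R ^ 2 * (x + 1) * (2 * x + 1) = n := by
    apply mul_right_cancel₀ (b := R * κ' * y ^ 2 * x * y) (by positivity)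
    rw [hκR] at hN
    linear_combination hN
  have g1 : (K1 : ℝ) = R * (2 + x - y) := by
    have : (y - x + 1) ≠ 0 := by intro h; linarith
    apply mul_right_cancel₀ this
    rw [hK1]
    linear_combination (2 * R) * hc'
  have g2 : (K2 : ℝ) * (2 * y - 2 * x - 1) = - (3 * (y - x) * R) := by
    have : (y + x - 1) ≠ 0 := by intro h; linarith
    apply mul_right_cancel₀ this
    linear_combination (2 * y - 2 * x - 1) * hK2 + (2 * y * R - 6 * x * R) * hc'
  have K1pos : (0 : ℝ) < K1 := by rw [g1]; exact mul_pos hRpos (by linarith)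
  have K2neg : (K2 : ℝ) < 0 := by
    by_contra h
    push Not at h
    have h5 : 0 < 3 * (y - x) * R := mul_pos (by linarith) hRpos
    have h6 : 0 ≤ (K2 : ℝ) * (2 * y - 2 * x - 1) := mul_nonneg h b1.le
    linarith
  have hprod : (2 + x - y) * (y - x) = (x + 1) * (2 * y - 2 * x - 1) := by
    linear_combination -hc'
  have hn2 : (n : ℝ) = - (K1 * K2) * (2 * x + 1) := by
    apply mul_right_cancel₀ b1.ne'
    rw [← hcount]
    linear_combination (2 * x + 1) * (K2 * (2 * y - 2 * x - 1)) * g1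
      + (2 * x + 1) * (R * (2 + x - y)) * g2 - 3 * R ^ 2 * (2 * x + 1) * hprod
  have hK12 : (- (K1 * K2) : ℝ) ≠ 0 := by
    have := mul_neg_of_pos_of_neg K1pos K2neg
    linarith
  have hxq : ∃ q : ℚ, (q : ℝ) = x := by
    refine ⟨(n / (- (K1 * K2)) - 1) / 2, ?_⟩
    push_cast
    rw [hn2, mul_div_cancel_left₀ _ hK12]
    ring
  have hyq : ∃ q : ℚ, (q : ℝ) = y := by
    by_contra hcon
    obtain ⟨q, hq⟩ := hxq
    have hirr : (K2 : ℝ) * (y * (4 * x + 5) - (4 * x ^ 2 + 7 * x + 4)) = - (3 * (y - x) * K1) := by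
      rw [g1]
      linear_combination (2 + x - y) * g2 + 2 * K2 * hc'
    have := lin hcon (K2 * (4 * q + 5) + 3 * K1) (K2 * (4 * q ^ 2 + 7 * q + 4) + 3 * K1 * q) (by
      push_cast
      rw [hq]
      linear_combination hirr)
    obtain ⟨e1, e2⟩ := this
    have e3 : (K2 : ℚ) * (2 * q + 4) = 0 := by linear_combination e2 - q * e1
    have hK2' : (K2 : ℚ) ≠ 0 := by
      intro h
      have : (K2 : ℝ) = 0 := by exact_mod_cast h
      linarith
    rcases mul_eq_zero.1 e3 with h | h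
    · exact hK2' h
    · have h7 : (2 * x + 4) = 0 := by rw [← hq]; exact_mod_cast h
      linarith
  have hRq : ∃ q : ℚ, (q : ℝ) = R := by
    obtain ⟨q, hq⟩ := hxq
    obtain ⟨r, hr'⟩ := hyq
    refine ⟨K1 / (2 + q - r), ?_⟩
    push_cast
    rw [hq, hr', g1]
    have : 2 + x - y ≠ 0 := by intro h; linarith
    field_simp
  obtain ⟨p, b, k, hp, hb, hk', hxp, hyp, hpb⟩ := triple ha0 ha2 hxq hyq hc'
  obtain ⟨r, hr'⟩ := hRq
  have hb' : (0 : ℝ) < b := by exact_mod_cast hb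
  refine ⟨_, Or.inr (Or.inr (Or.inr ⟨p, b, k, hp, hb, hpb, Or.inl ⟨?_, rfl⟩⟩)), 1, R / b ^ 2,
    by positivity, ?_⟩
  · apply not_sq hn (r / b)
    push_cast
    rw [hr', ← hcount, hxp]
    field_simp
  · intro i
    fin_cases i
    · change X 0 = R / b ^ 2 * (3 * (p:ℝ) * (p + b))
      rw [X0e, hxp]; field_simp
    · change X 1 = R / b ^ 2 * ((k:ℝ) * (2 * p + b))
      rw [X1e, hxp, hyp]; field_simp
    · change X 2 = R / b ^ 2 * ((k:ℝ) ^ 2)
      rw [X2e, hyp]; field_simp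

theorem G2 (F : Facts n a t X th M D) (hn : ¬ IsSquare n)
    (hX : Function.Injective X)
    (hr : ¬ (∃ d : ℕ, 0 < d ∧ ∀ j, ∃ k : ℤ, t j * d = k * π)) (ha1 : a 1 = 1)
    (hM : M = ![![2,1,0],![1,1,0],![0,1,0]]) : ExcX X := by
  obtain ⟨hs, h2⟩ := angles F (by rw [hM]; rfl) (by rw [hM]; rfl) (by rw [hM]; rfl)
  obtain ⟨κ, hκ, hj, f0, f1, hc, hsn, hcs⟩ := trig F hs h2
  obtain ⟨κ', hκ', hk⟩ := F.sin_th
  have hN := count F hj hk
  obtain ⟨K1, hK1⟩ := col1 F hs h2 hr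
  obtain ⟨K2, hK2⟩ := col2 F hs h2 hr
  have M00 : M 0 0 = 2 := by rw [hM]; rfl
  have M01 : M 0 1 = 1 := by rw [hM]; rfl
  have M02 : M 0 2 = 0 := by rw [hM]; rfl
  have M10 : M 1 0 = 1 := by rw [hM]; rfl
  have M11 : M 1 1 = 1 := by rw [hM]; rfl
  have M12 : M 1 2 = 0 := by rw [hM]; rfl
  have M20 : M 2 0 = 0 := by rw [hM]; rfl
  have M21 : M 2 1 = 1 := by rw [hM]; rfl
  have M22 : M 2 2 = 0 := by rw [hM]; rfl
  have th0 : th 0 = t 0 + (t 0 + t 1) := by rw [F.ang 0, M00, M01, M02]; push_cast; ring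
  have th1 : th 1 = t 0 + t 1 := by rw [F.ang 1, M10, M11, M12]; push_cast; ring
  have th2 : th 2 = t 1 := by rw [F.ang 2, M20, M21, M22]; push_cast; ring
  rw [M10, M00] at hK1
  rw [M11, M01] at hK2
  have ha0 := F.a_pos 0
  have ha2 := F.a_pos 2
  rw [ha1] at f0 f1 hc hN hK1 hK2
  have k0 := hk 0
  have k1 := hk 1
  have k2 := hk 2
  rw [th0, Real.sin_add, hj 0, hsn, hcs] at k0
  rw [th1, hsn] at k1
  rw [th2, hj, ha1] at k2
  have s0 := Real.sin_sq_add_cos_sq (t 0)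
  rw [hj 0] at s0
  have hX0 := F.X_pos 0
  have hX1 := F.X_pos 1
  have hX2 := F.X_pos 2
  have S0 := F.sid 0
  have S1 := F.sid 1
  have S2 := F.sid 2
  rw [ha1] at S0 S1 S2
  have hce := F.ce 0
  generalize Real.cos (t 0) = u at *
  generalize Real.cos (t 1) = w at *
  generalize a 0 = x at *
  generalize a 2 = y at *
  have hc' : y ^ 2 = x ^ 2 + x + 1 := by linear_combination hc
  obtain ⟨b1, b2⟩ := bounds ha0 ha2 hc'
  have y1 : 1 < y := by
    have h5 : 1 < y ^ 2 := by rw [hc']; have := mul_pos ha0 ha0; linarith [sq x]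
    exact (one_lt_sq_iff₀ ha2.le).1 h5
  obtain ⟨R, hR⟩ : ∃ R : ℝ, R = κ / κ' := ⟨_, rfl⟩
  have hRpos : 0 < R := by rw [hR]; positivity
  have hκR : κ = R * κ' := by rw [hR]; field_simp
  have X0e : X 0 = R * (x + 1) := by
    rw [hR]
    have : κ' * X 0 = κ * (x + 1) := by
      rw [← k0]
      linear_combination κ / 2 * f0
    field_simp
    linear_combination this
  have X1e : X 1 = R * y := by
    rw [hR]
    field_simp
    linear_combination -k1
  have X2e : X 2 = R := by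
    rw [hR]
    field_simp
    linear_combination -k2
  rw [X0e, X1e, X2e] at hK1 hK2 hN
  have hcount : R ^ 2 * (x + 1) = n * x := by
    apply mul_right_cancel₀ (b := R * κ' * y) (by positivity)
    rw [hκR] at hN
    linear_combination hN
  have g1 : (K1 : ℝ) * x = R * (y - 1) := by
    have : (y - x + 1) ≠ 0 := by intro h; linarith
    apply mul_right_cancel₀ this
    linear_combination x * hK1 - R * hc'
  have g2 : (K2 : ℝ) * x = R * (y + 1) := by
    have : (y + x - 1) ≠ 0 := by intro h; linarith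
    apply mul_right_cancel₀ this
    linear_combination x * hK2 - R * hc'
  have K1pos : (0 : ℝ) < K1 := by
    have h5 : 0 < R * (y - 1) := mul_pos hRpos (by linarith)
    rw [← g1] at h5
    exact pos_of_mul_pos_left h5 ha0.le
  have K2pos : (0 : ℝ) < K2 := by
    have h5 : 0 < R * (y + 1) := mul_pos hRpos (by linarith)
    rw [← g2] at h5
    exact pos_of_mul_pos_left h5 ha0.le
  have hrel : (K2 : ℝ) * (y - 1) = K1 * (y + 1) := by
    apply mul_right_cancel₀ ha0.ne'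
    linear_combination (y - 1) * g2 - (y + 1) * g1
  have hyq : ∃ q : ℚ, (q : ℝ) = y := by
    have : (K2 : ℝ) - K1 ≠ 0 := by
      intro h
      have h6 : (K2 : ℝ) = K1 := by linarith
      rw [h6] at hrel
      linarith [hrel]
    refine ⟨(K1 + K2) / (K2 - K1), ?_⟩
    push_cast
    field_simp
    linear_combination -hrel
  have hxq : ∃ q : ℚ, (q : ℝ) = x := by
    by_contra hcon
    obtain ⟨r, hr'⟩ := hyq
    have hR2 : R = K2 * x / (y + 1) := by
      rw [g2]; field_simp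
    have hy0 : (y + 1) ≠ 0 := by intro h; linarith
    have aux : ∀ d0 d1 d2 : ℕ, ∀ z : ℚ, R * z = d0 * x + d1 * 1 + d2 * y → d1 = 0 ∧ d2 = 0 := by
      intro d0 d1 d2 z hz
      have := lin hcon (K2 * z / (r + 1) - d0) (d1 + d2 * r) (by
        push_cast
        rw [hr']
        rw [hR2] at hz
        field_simp at hz ⊢
        linear_combination hz)
      have h8 : (d1 : ℝ) + d2 * y = 0 := by rw [← hr']; exact_mod_cast this.2
      have h9 : (0:ℝ) ≤ d1 := Nat.cast_nonneg _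
      have h10 : (0:ℝ) ≤ d2 := Nat.cast_nonneg _
      have h11 : (0:ℝ) ≤ d2 * y := mul_nonneg h10 ha2.le
      have h12 : (d1 : ℝ) = 0 := by linarith
      have h13 : (d2 : ℝ) * y = 0 := by linarith
      rcases mul_eq_zero.1 h13 with h | h
      · exact ⟨by exact_mod_cast h12, by exact_mod_cast h⟩
      · exact absurd h ha2.ne'
    obtain ⟨D11, D12⟩ := aux (D 1 0) (D 1 1) (D 1 2) r (by rw [hr', ← X1e]; exact S1)
    obtain ⟨D21, D22⟩ := aux (D 2 0) (D 2 1) (D 2 2) 1 (by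
      rw [Rat.cast_one, mul_one, ← X2e]; exact S2)
    obtain ⟨j, e, j', e', h1, h2, h3, h4, h5, h6, h7⟩ := hce
    have q1 : (0 : Fin 3) + 1 = 1 := rfl
    have q2 : (0 : Fin 3) + 2 = 2 := rfl
    rw [q1] at h5
    rw [q2] at h6
    have he : e = 0 := by
      rcases fin3 e with rfl | rfl | rfl
      · rfl
      · exact absurd D11 h5
      · exact absurd D12 h5
    have he' : e' = 0 := by
      rcases fin3 e' with rfl | rfl | rfl
      · rfl
      · exact absurd D21 h6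
      · exact absurd D22 h6
    subst he he'
    have hj1 : j = 1 := by
      rcases fin3 j with rfl | rfl | rfl
      · exact absurd rfl h1
      · rfl
      · exact absurd M02 h3
    have hj1' : j' = 1 := by
      rcases fin3 j' with rfl | rfl | rfl
      · exact absurd rfl h2
      · rfl
      · exact absurd M02 h4
    subst hj1 hj1'
    rcases h7 rfl with h | h
    · rw [M01] at h; omega
    · exact h rfl
  have hRq : ∃ q : ℚ, (q : ℝ) = R := by
    obtain ⟨q, hq⟩ := hxq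
    obtain ⟨r, hr'⟩ := hyq
    refine ⟨K2 * q / (r + 1), ?_⟩
    push_cast
    rw [hq, hr', g2]
    field_simp
  obtain ⟨p, b, k, hp, hb, hk', hxp, hyp, hpb⟩ := triple ha0 ha2 hxq hyq hc'
  obtain ⟨r, hr'⟩ := hRq
  have hb' : (0 : ℝ) < b := by exact_mod_cast hb
  have hp' : (0 : ℝ) < p := by exact_mod_cast hp
  refine ⟨_, Or.inr (Or.inr (Or.inr ⟨p, b, k, hp, hb, hpb, Or.inr (Or.inl ⟨?_, rfl⟩)⟩)),
    1, R / b, by positivity, ?_⟩
  · apply not_sq hn (r / p)
    push_cast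
    rw [hr']
    rw [hxp] at hcount
    field_simp at hcount
    field_simp
    linear_combination -hcount
  · intro i
    fin_cases i
    · change X 0 = R / b * ((p:ℝ) + b)
      rw [X0e, hxp]; field_simp
    · change X 1 = R / b * (k:ℝ)
      rw [X1e, hyp]; field_simp
    · change X 2 = R / b * (b:ℝ)
      rw [X2e]; field_simp

theorem G3 (F : Facts n a t X th M D) (hn : ¬ IsSquare n)
    (hX : Function.Injective X)
    (hr : ¬ (∃ d : ℕ, 0 < d ∧ ∀ j, ∃ k : ℤ, t j * d = k * π)) (ha1 : a 1 = 1)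
    (hM : M = ![![2,1,0],![0,2,0],![1,0,0]]) : ExcX X := by
  obtain ⟨hs, h2⟩ := angles F (by rw [hM]; rfl) (by rw [hM]; rfl) (by rw [hM]; rfl)
  obtain ⟨κ, hκ, hj, f0, f1, hc, hsn, hcs⟩ := trig F hs h2
  obtain ⟨κ', hκ', hk⟩ := F.sin_th
  have hN := count F hj hk
  obtain ⟨K1, hK1⟩ := col1 F hs h2 hr
  obtain ⟨K2, hK2⟩ := col2 F hs h2 hr
  have M00 : M 0 0 = 2 := by rw [hM]; rfl
  have M01 : M 0 1 = 1 := by rw [hM]; rfl
  have M02 : M 0 2 = 0 := by rw [hM]; rfl
  have M10 : M 1 0 = 0 := by rw [hM]; rfl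
  have M11 : M 1 1 = 2 := by rw [hM]; rfl
  have M12 : M 1 2 = 0 := by rw [hM]; rfl
  have M20 : M 2 0 = 1 := by rw [hM]; rfl
  have M21 : M 2 1 = 0 := by rw [hM]; rfl
  have M22 : M 2 2 = 0 := by rw [hM]; rfl
  have th0 : th 0 = t 0 + (t 0 + t 1) := by rw [F.ang 0, M00, M01, M02]; push_cast; ring
  have th1 : th 1 = 2 * t 1 := by rw [F.ang 1, M10, M11, M12]; push_cast; ring
  have th2 : th 2 = t 0 := by rw [F.ang 2, M20, M21, M22]; push_cast; ring
  rw [M10, M00] at hK1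
  rw [M11, M01] at hK2
  have ha0 := F.a_pos 0
  have ha2 := F.a_pos 2
  rw [ha1] at f0 f1 hc hN hK1 hK2
  have k0 := hk 0
  have k1 := hk 1
  have k2 := hk 2
  rw [th0, Real.sin_add, hj 0, hsn, hcs] at k0
  rw [th1, Real.sin_two_mul, hj, ha1] at k1
  rw [th2, hj] at k2
  have s0 := Real.sin_sq_add_cos_sq (t 0)
  rw [hj 0] at s0
  have hX0 := F.X_pos 0
  have hX1 := F.X_pos 1
  have hX2 := F.X_pos 2
  have S0 := F.sid 0
  have S1 := F.sid 1
  have S2 := F.sid 2
  rw [ha1] at S0 S1 S2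
  have hce := F.ce 0
  generalize Real.cos (t 0) = u at *
  generalize Real.cos (t 1) = w at *
  generalize a 0 = x at *
  generalize a 2 = y at *
  have hc' : y ^ 2 = x ^ 2 + x + 1 := by linear_combination hc
  obtain ⟨b1, b2⟩ := bounds ha0 ha2 hc'
  have y1 : 1 < y := by
    have h5 : 1 < y ^ 2 := by rw [hc']; have := mul_pos ha0 ha0; linarith [sq x]
    exact (one_lt_sq_iff₀ ha2.le).1 h5
  obtain ⟨R, hR⟩ : ∃ R : ℝ, R = κ / (κ' * y) := ⟨_, rfl⟩
  have hRpos : 0 < R := by rw [hR]; positivity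
  have hκR : κ = R * κ' * y := by rw [hR]; field_simp
  have X0e : X 0 = R * (y * (x + 1)) := by
    rw [hR]
    have : κ' * X 0 = κ * (x + 1) := by
      rw [← k0]
      linear_combination κ / 2 * f0
    field_simp
    linear_combination this
  have X1e : X 1 = R * (2 * x + 1) := by
    rw [hR]
    have : κ' * X 1 * y = κ * (2 * x + 1) := by
      rw [← k1]; linear_combination κ * f1
    field_simp
    linear_combination this
  have X2e : X 2 = R * (x * y) := by
    rw [hR]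
    field_simp
    linear_combination -k2
  rw [X0e, X1e, X2e] at hK1 hK2 hN
  have hcount : R ^ 2 * (x + 1) * (2 * x + 1) = n := by
    apply mul_right_cancel₀ (b := R * κ' * y * x * y) (by positivity)
    rw [hκR] at hN
    linear_combination hN
  have g1 : (K1 : ℝ) * (2 * y - 2 * x - 1) = - (R * (2 + x - y)) := by
    have : (y - x + 1) ≠ 0 := by intro h; linarith
    apply mul_right_cancel₀ this
    linear_combination (2 * y - 2 * x - 1) * hK1 - (3 * R) * hc'
  have g2 : (K2 : ℝ) = R * (y - x) := by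
    have : (y + x - 1) ≠ 0 := by intro h; linarith
    apply mul_right_cancel₀ this
    linear_combination hK2 - R * hc'
  have K2pos : (0 : ℝ) < K2 := by rw [g2]; exact mul_pos hRpos (by linarith)
  have K1neg : (K1 : ℝ) < 0 := by
    by_contra h
    push Not at h
    have h5 : 0 < R * (2 + x - y) := mul_pos hRpos (by linarith)
    have h6 : 0 ≤ (K1 : ℝ) * (2 * y - 2 * x - 1) := mul_nonneg h b1.le
    linarith
  have hprod : (2 + x - y) * (y - x) = (x + 1) * (2 * y - 2 * x - 1) := by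
    linear_combination -hc'
  have hn2 : (n : ℝ) = - (K1 * K2) * (2 * x + 1) := by
    apply mul_right_cancel₀ b1.ne'
    rw [← hcount]
    linear_combination (2 * x + 1) * K2 * g1
      - (2 * x + 1) * (R * (2 + x - y)) * g2 - R ^ 2 * (2 * x + 1) * hprod
  have hK12 : (- (K1 * K2) : ℝ) ≠ 0 := by
    have := mul_neg_of_neg_of_pos K1neg K2pos
    linarith
  have hxq : ∃ q : ℚ, (q : ℝ) = x := by
    refine ⟨(n / (- (K1 * K2)) - 1) / 2, ?_⟩
    push_cast
    rw [hn2, mul_div_cancel_left₀ _ hK12]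
    ring
  have hyq : ∃ q : ℚ, (q : ℝ) = y := by
    by_contra hcon
    obtain ⟨q, hq⟩ := hxq
    have hirr : (K1 : ℝ) * ((4 * x ^ 2 + 3 * x + 2) - (4 * x + 1) * y) = - (K2 * (2 + x - y)) := by
      rw [g2]
      linear_combination (y - x) * g1 - 2 * K1 * hc'
    have := lin hcon (-(K1 * (4 * q + 1)) - K2) (-(K1 * (4 * q ^ 2 + 3 * q + 2)) - K2 * (2 + q)) (by
      push_cast
      rw [hq]
      linear_combination hirr)
    obtain ⟨e1, e2⟩ := this
    have e3 : (K1 : ℚ) * (6 * q) = 0 := by linear_combination e2 - (q + 2) * e1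
    have hK1' : (K1 : ℚ) ≠ 0 := by
      intro h
      have : (K1 : ℝ) = 0 := by exact_mod_cast h
      linarith
    rcases mul_eq_zero.1 e3 with h | h
    · exact hK1' h
    · have h7 : (6 * x) = 0 := by rw [← hq]; exact_mod_cast h
      linarith
  have hRq : ∃ q : ℚ, (q : ℝ) = R := by
    obtain ⟨q, hq⟩ := hxq
    obtain ⟨r, hr'⟩ := hyq
    refine ⟨K2 / (r - q), ?_⟩
    push_cast
    rw [hq, hr', g2]
    have : y - x ≠ 0 := by intro h; linarith
    field_simp
  obtain ⟨p, b, k, hp, hb, hk', hxp, hyp, hpb⟩ := triple ha0 ha2 hxq hyq hc'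
  obtain ⟨r, hr'⟩ := hRq
  have hb' : (0 : ℝ) < b := by exact_mod_cast hb
  refine ⟨_, Or.inr (Or.inr (Or.inr ⟨p, b, k, hp, hb, hpb, Or.inr (Or.inr (Or.inl ⟨?_, rfl⟩))⟩)),
    1, R / b ^ 2, by positivity, ?_⟩
  · apply not_sq hn (r / b)
    push_cast
    rw [hr', ← hcount, hxp]
    field_simp
  · intro i
    fin_cases i
    · change X 0 = R / b ^ 2 * ((k:ℝ) * (p + b))
      rw [X0e, hxp, hyp]; field_simp
    · change X 1 = R / b ^ 2 * ((b:ℝ) * (2 * p + b))
      rw [X1e, hxp]; field_simp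
    · change X 2 = R / b ^ 2 * ((p:ℝ) * k)
      rw [X2e, hxp, hyp]; field_simp

theorem G4 (F : Facts n a t X th M D) (hn : ¬ IsSquare n)
    (hX : Function.Injective X)
    (hr : ¬ (∃ d : ℕ, 0 < d ∧ ∀ j, ∃ k : ℤ, t j * d = k * π)) (ha1 : a 1 = 1)
    (hM : M = ![![2,0,0],![0,2,0],![1,1,0]]) : ExcX X := by
  obtain ⟨hs, h2⟩ := angles F (by rw [hM]; rfl) (by rw [hM]; rfl) (by rw [hM]; rfl)
  obtain ⟨κ, hκ, hj, f0, f1, hc, hsn, hcs⟩ := trig F hs h2
  obtain ⟨κ', hκ', hk⟩ := F.sin_th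
  have hN := count F hj hk
  obtain ⟨K1, hK1⟩ := col1 F hs h2 hr
  obtain ⟨K2, hK2⟩ := col2 F hs h2 hr
  have M00 : M 0 0 = 2 := by rw [hM]; rfl
  have M01 : M 0 1 = 0 := by rw [hM]; rfl
  have M02 : M 0 2 = 0 := by rw [hM]; rfl
  have M10 : M 1 0 = 0 := by rw [hM]; rfl
  have M11 : M 1 1 = 2 := by rw [hM]; rfl
  have M12 : M 1 2 = 0 := by rw [hM]; rfl
  have M20 : M 2 0 = 1 := by rw [hM]; rfl
  have M21 : M 2 1 = 1 := by rw [hM]; rfl
  have M22 : M 2 2 = 0 := by rw [hM]; rfl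
  have th0 : th 0 = 2 * t 0 := by rw [F.ang 0, M00, M01, M02]; push_cast; ring
  have th1 : th 1 = 2 * t 1 := by rw [F.ang 1, M10, M11, M12]; push_cast; ring
  have th2 : th 2 = t 0 + t 1 := by rw [F.ang 2, M20, M21, M22]; push_cast; ring
  rw [M10, M00] at hK1
  rw [M11, M01] at hK2
  have ha0 := F.a_pos 0
  have ha2 := F.a_pos 2
  rw [ha1] at f0 f1 hc hN hK1 hK2
  have k0 := hk 0
  have k1 := hk 1
  have k2 := hk 2
  rw [th0, Real.sin_two_mul, hj] at k0
  rw [th1, Real.sin_two_mul, hj, ha1] at k1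
  rw [th2, hsn] at k2
  have s0 := Real.sin_sq_add_cos_sq (t 0)
  rw [hj 0] at s0
  have hX0 := F.X_pos 0
  have hX1 := F.X_pos 1
  have hX2 := F.X_pos 2
  have S0 := F.sid 0
  have S1 := F.sid 1
  have S2 := F.sid 2
  rw [ha1] at S0 S1 S2
  have hce := F.ce 0
  generalize Real.cos (t 0) = u at *
  generalize Real.cos (t 1) = w at *
  generalize a 0 = x at *
  generalize a 2 = y at *
  have hc' : y ^ 2 = x ^ 2 + x + 1 := by linear_combination hc
  obtain ⟨b1, b2⟩ := bounds ha0 ha2 hc'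
  have y1 : 1 < y := by
    have h5 : 1 < y ^ 2 := by rw [hc']; have := mul_pos ha0 ha0; linarith [sq x]
    exact (one_lt_sq_iff₀ ha2.le).1 h5
  obtain ⟨R, hR⟩ : ∃ R : ℝ, R = κ / (κ' * y) := ⟨_, rfl⟩
  have hRpos : 0 < R := by rw [hR]; positivity
  have hκR : κ = R * κ' * y := by rw [hR]; field_simp
  have X0e : X 0 = R * (x * (x + 2)) := by
    rw [hR]
    have : κ' * X 0 * y = κ * (x * (x + 2)) := by
      rw [← k0]; linear_combination κ * x * f0
    field_simp
    linear_combination this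
  have X1e : X 1 = R * (2 * x + 1) := by
    rw [hR]
    have : κ' * X 1 * y = κ * (2 * x + 1) := by
      rw [← k1]; linear_combination κ * f1
    field_simp
    linear_combination this
  have X2e : X 2 = R * y ^ 2 := by
    rw [hR]
    field_simp
    linear_combination -k2
  have hne : X 0 ≠ X 1 := fun h => absurd (hX h) (by decide)
  rw [X0e, X1e] at hne
  rw [X0e, X1e, X2e] at hK1 hK2 hN
  have hcount : R ^ 2 * (2 * x + 1) * (x + 2) = n := by
    apply mul_right_cancel₀ (b := R * κ' * y * x * y) (by positivity)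
    rw [hκR] at hN
    linear_combination hN
  obtain ⟨k1, e1⟩ : ∃ k1 : ℤ, k1 = -K1 := ⟨_, rfl⟩
  obtain ⟨k2, e2⟩ : ∃ k2 : ℤ, k2 = -K2 := ⟨_, rfl⟩
  have e1' : (K1 : ℝ) = -k1 := by rw [e1]; push_cast; ring
  have e2' : (K2 : ℝ) = -k2 := by rw [e2]; push_cast; ring
  have g1 : (k1 : ℝ) * (y - x + 1) = 3 * x * R := by
    rw [e1'] at hK1
    linear_combination -hK1 - R * hc'
  have g2 : (k2 : ℝ) * (y + x - 1) = 3 * x * R := by
    rw [e2'] at hK2
    linear_combination -hK2 - R * hc'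
  have k1pos : (0 : ℝ) < k1 := by
    have h5 : 0 < 3 * x * R := by positivity
    rw [← g1] at h5
    exact pos_of_mul_pos_left h5 (by linarith)
  have k2pos : (0 : ℝ) < k2 := by
    have h5 : 0 < 3 * x * R := by positivity
    rw [← g2] at h5
    exact pos_of_mul_pos_left h5 (by linarith)
  have hrel : ((k1 : ℝ) - k2) * y = (k1 + k2) * (x - 1) := by
    linear_combination g1 - g2
  have hk12 : (k1 : ℝ) - k2 ≠ 0 := by
    intro h
    rw [h, zero_mul] at hrel
    rcases mul_eq_zero.1 hrel.symm with h | h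
    · linarith
    · apply hne
      have : x = 1 := by linarith
      rw [this]; norm_num
  obtain ⟨μ, hμ⟩ : ∃ μ : ℚ, μ = (k1 + k2) / (k1 - k2) := ⟨_, rfl⟩
  have hμ' : (μ : ℝ) * (k1 - k2) = k1 + k2 := by
    rw [hμ]; push_cast; field_simp
  have hy : y = μ * (x - 1) := by
    apply mul_left_cancel₀ hk12
    rw [hrel, ← hμ']; ring
  have hμ1 : 0 < (μ : ℝ) ^ 2 - 1 := by
    have h5 : 0 < ((k1 : ℝ) - k2) ^ 2 := by positivity
    have h6 : ((μ : ℝ) ^ 2 - 1) * ((k1 : ℝ) - k2) ^ 2 = 4 * k1 * k2 := by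
      have : (μ : ℝ) ^ 2 * ((k1 : ℝ) - k2) ^ 2 = (k1 + k2) ^ 2 := by rw [← hμ']; ring
      linear_combination this
    have h7 : (0 : ℝ) < 4 * k1 * k2 := by positivity
    rw [← h6] at h7
    exact pos_of_mul_pos_left h7 h5.le
  have hxq : ∃ q : ℚ, (q : ℝ) = x := by
    by_contra hcon
    obtain ⟨t', ht'⟩ : ∃ t' : ℚ, t' = (2 * μ ^ 2 + 1) / (μ ^ 2 - 1) := ⟨_, rfl⟩
    have ht : (t' : ℝ) * (μ ^ 2 - 1) = 2 * μ ^ 2 + 1 := by
      rw [ht']; push_cast; field_simp
    have ht2 : 0 < (t' : ℝ) - 2 := by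
      have h5 : ((t' : ℝ) - 2) * (μ ^ 2 - 1) = 3 := by linear_combination ht
      have h6 : 0 < ((t' : ℝ) - 2) * (μ ^ 2 - 1) := by rw [h5]; norm_num
      exact pos_of_mul_pos_left h6 hμ1.le
    have hxx : x ^ 2 = t' * x - 1 := by
      apply mul_left_cancel₀ hμ1.ne'
      have : (μ : ℝ) ^ 2 * (x - 1) ^ 2 = x ^ 2 + x + 1 := by rw [← hc', hy]; ring
      linear_combination this - x * ht
    obtain ⟨k, hk⟩ : ∃ k : ℚ, k = k1 * (μ - 1) := ⟨_, rfl⟩
    have hk' : (k : ℝ) = k1 * (μ - 1) := by rw [hk]; push_cast; ring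
    have h3 : 3 * x * R = k * (x - 1) := by
      rw [hk', ← g1, hy]; ring
    have hx1 : x ≠ 1 := by
      intro h
      exact hcon ⟨1, by rw [h]; simp⟩
    rcases lt_or_gt_of_ne hx1 with hlt | hgt
    · -- `x < 1`: use side 0
      have hkneg : (k : ℝ) < 0 := by
        by_contra h
        push Not at h
        have h5 : 0 < 3 * x * R := by positivity
        rw [h3] at h5
        have h6 : (k : ℝ) * (x - 1) ≤ 0 := mul_nonpos_of_nonneg_of_nonpos h (by linarith)
        linarith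
      have hX0' : X 0 = k / 3 * ((1 + t') * x - 3) := by
        rw [X0e]
        linear_combination (x + 2) / 3 * h3 + k / 3 * hxx
      rw [S0, hy] at hX0'
      have := lin hcon (k / 3 * (1 + t') - D 0 0 - D 0 2 * μ) (k + D 0 1 - D 0 2 * μ) (by
        push_cast
        linear_combination -hX0')
      obtain ⟨e3, e4⟩ := this
      have e3' : (k : ℝ) / 3 * (1 + t') - D 0 0 - D 0 2 * μ = 0 := by exact_mod_cast e3
      have e4' : (k : ℝ) + D 0 1 - D 0 2 * μ = 0 := by exact_mod_cast e4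
      have h8 : (0:ℝ) ≤ D 0 0 := Nat.cast_nonneg _
      have h9 : (0:ℝ) ≤ D 0 1 := Nat.cast_nonneg _
      have h10 : (k : ℝ) * (t' - 2) = 3 * (D 0 0 + D 0 1) := by
        linear_combination 3 * e3' - 3 * e4'
      have h11 : (k : ℝ) * (t' - 2) < 0 := mul_neg_of_neg_of_pos hkneg ht2
      linarith
    · have hkpos : 0 < (k : ℝ) := by
        by_contra h
        push Not at h
        have h5 : 0 < 3 * x * R := by positivity
        rw [h3] at h5
        have h6 : (k : ℝ) * (x - 1) ≤ 0 := mul_nonpos_of_nonpos_of_nonneg h (by linarith)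
        linarith
      have hX1' : X 1 = k / 3 * (3 * x - (1 + t')) := by
        rw [X1e]
        apply mul_left_cancel₀ (a := 3 * x) (by positivity)
        linear_combination (2 * x + 1) * h3 - k * hxx
      rw [S1, hy] at hX1'
      have := lin hcon (k - D 1 0 - D 1 2 * μ) (k / 3 * (1 + t') + D 1 1 - D 1 2 * μ) (by
        push_cast
        linear_combination -hX1')
      obtain ⟨e3, e4⟩ := this
      have e3' : (k : ℝ) - D 1 0 - D 1 2 * μ = 0 := by exact_mod_cast e3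
      have e4' : (k : ℝ) / 3 * (1 + t') + D 1 1 - D 1 2 * μ = 0 := by exact_mod_cast e4
      have h8 : (0:ℝ) ≤ D 1 0 := Nat.cast_nonneg _
      have h9 : (0:ℝ) ≤ D 1 1 := Nat.cast_nonneg _
      have h10 : (k : ℝ) * (t' - 2) = - (3 * (D 1 0 + D 1 1)) := by
        linear_combination 3 * e4' - 3 * e3'
      have h11 : 0 < (k : ℝ) * (t' - 2) := mul_pos hkpos ht2
      linarith
  have hyq : ∃ q : ℚ, (q : ℝ) = y := by
    obtain ⟨q, hq⟩ := hxq
    exact ⟨μ * (q - 1), by push_cast; rw [hq, hy]⟩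
  have hRq : ∃ q : ℚ, (q : ℝ) = R := by
    obtain ⟨q, hq⟩ := hxq
    obtain ⟨r, hr'⟩ := hyq
    refine ⟨k1 * (r - q + 1) / (3 * q), ?_⟩
    push_cast
    rw [hq, hr', g1]
    field_simp
  obtain ⟨p, b, k, hp, hb, hk', hxp, hyp, hpb⟩ := triple ha0 ha2 hxq hyq hc'
  obtain ⟨r, hr'⟩ := hRq
  have hb' : (0 : ℝ) < b := by exact_mod_cast hb
  refine ⟨_, Or.inr (Or.inr (Or.inr ⟨p, b, k, hp, hb, hpb, Or.inr (Or.inr (Or.inr ⟨?_, rfl⟩))⟩)),
    1, R / b ^ 2, by positivity, ?_⟩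
  · apply not_sq hn (r / b)
    push_cast
    rw [hr', ← hcount, hxp]
    field_simp
  · intro i
    fin_cases i
    · change X 0 = R / b ^ 2 * ((p:ℝ) * (p + 2 * b))
      rw [X0e, hxp]; field_simp
    · change X 1 = R / b ^ 2 * ((b:ℝ) * (2 * p + b))
      rw [X1e, hxp]; field_simp
    · change X 2 = R / b ^ 2 * ((k:ℝ) ^ 2)
      rw [X2e, hyp]; field_simp

/-- reduction to `a 1 = 1` -/
theorem unscale {rows : Fin 3 → Fin 3 → ℕ}
    (G : ∀ {n : ℕ} {a t X th : Fin 3 → ℝ} {M D : Fin 3 → Fin 3 → ℕ}, Facts n a t X th M D →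
      ¬ IsSquare n → Function.Injective X →
      ¬ (∃ d : ℕ, 0 < d ∧ ∀ j, ∃ k : ℤ, t j * d = k * π) → a 1 = 1 → M = rows → ExcX X)
    (F : Facts n a t X th M D) (hn : ¬ IsSquare n) (hX : Function.Injective X)
    (hr : ¬ (∃ d : ℕ, 0 < d ∧ ∀ j, ∃ k : ℤ, t j * d = k * π)) (hM : M = rows) : ExcX X := by
  have h1 := F.a_pos 1
  have hl : 0 < (a 1)⁻¹ := inv_pos.2 h1
  refine excX_scale hl (G (scale F hl) hn ?_ hr (inv_mul_cancel₀ h1.ne') hM)
  intro k l h
  exact hX (mul_left_cancel₀ hl.ne' h)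

/-- Module N5: the families G1, G2, G3, G4. -/
theorem specN5 (F : Facts n a t X th M D) (hn : ¬ IsSquare n) (hX : Function.Injective X)
    (hr : ¬ (∃ d : ℕ, 0 < d ∧ ∀ j, ∃ k : ℤ, t j * d = k * π))
    (hM : M = ![![3,0,0],![0,2,0],![0,1,0]] ∨ M = ![![2,1,0],![1,1,0],![0,1,0]] ∨
      M = ![![2,1,0],![0,2,0],![1,0,0]] ∨ M = ![![2,0,0],![0,2,0],![1,1,0]]) : ExcX X := by
  rcases hM with hM | hM | hM | hM
  · exact unscale G1 F hn hX hr hM
  · exact unscale G2 F hn hX hr hM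
  · exact unscale G3 F hn hX hr hM
  · exact unscale G4 F hn hX hr hM

end Pool.Agent.Helper13.SqN5
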