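import Pool.Agent.Helper27.SqFacts

/-!
Module N5 of MP_a03157_co, common part: tiles with an angle `2π/3`.
-/

open scoped Real

namespace Pool.Agent.Helper13.SqN5

open Pool.Agent.Helper27.Sq

variable {n : ℕ} {a t X th : Fin 3 → ℝ} {M D : Fin 3 → Fin 3 → ℕ}

/-- scaling of both the triangle and the tile -/
theorem scale (h : Facts n a t X th M D) {l : ℝ} (hl : 0 < l) :
    Facts n (fun j => l * a j) t (fun k => l * X k) th M D where
  n_pos := h.n_pos
  a_pos := fun j => mul_pos hl (h.a_pos j)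
  t_pos := h.t_pos
  t_sum := h.t_sum
  X_pos := fun j => mul_pos hl (h.X_pos j)
  th_pos := h.th_pos
  th_sum := h.th_sum
  sin_t := by
    obtain ⟨κ, hκ, hs⟩ := h.sin_t
    refine ⟨κ / l, by positivity, fun j => ?_⟩
    rw [hs j]; field_simp
  sin_th := by
    obtain ⟨κ, hκ, hs⟩ := h.sin_th
    refine ⟨κ / l, by positivity, fun j => ?_⟩
    rw [hs j]; field_simp
  ang := h.ang
  sid := fun k => by rw [h.sid k]; ring
  area := fun k j => by
    have := h.area k j
    linear_combination l^2 * this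
  ce := h.ce
  vert := h.vert
  col := fun x hx => by
    obtain ⟨K, hK⟩ := h.col x hx
    exact ⟨K, by linear_combination l * hK⟩

theorem excX_scale {X : Fin 3 → ℝ} {l : ℝ} (hl : 0 < l) (h : ExcX (fun k => l * X k)) :
    ExcX X := by
  obtain ⟨x, hx, σ, r, hr, hk⟩ := h
  refine ⟨x, hx, σ, r / l, by positivity, fun k => ?_⟩
  have := hk k
  simp only at this
  field_simp
  linarith

/-- `al, be` are independent over `ℤ` when `al + be = π/3` and not all angles are rational -/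
theorem indep (hs : t 0 + t 1 = π / 3) (h2 : t 2 = 2 * π / 3)
    (hr : ¬ (∃ d : ℕ, 0 < d ∧ ∀ j, ∃ k : ℤ, t j * d = k * π)) (p q : ℤ)
    (h : p * t 0 + q * t 1 = 0) : p = 0 ∧ q = 0 := by
  by_cases hpq : p = q
  · subst hpq
    have h3 : (p : ℝ) * (π / 3) = 0 := by rw [← hs]; linarith
    have h4 : (p : ℝ) = 0 := by
      rcases mul_eq_zero.1 h3 with h | h
      · exact h
      · exact absurd h (by positivity)
    have h5 : p = 0 := by exact_mod_cast h4
    exact ⟨h5, h5⟩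
  · exfalso
    apply hr
    have h1 : t 1 = π / 3 - t 0 := by linarith
    have h3 : ((p - q : ℤ) : ℝ) * 3 * t 0 = - (q * π) := by
      rw [h1] at h
      push_cast
      linear_combination 3 * h
    rcases lt_or_gt_of_ne (sub_ne_zero.2 hpq) with hneg | hpos
    · refine ⟨(q - p).toNat * 3, ?_, ?_⟩
      · have : 0 < (q - p).toNat := by
          rw [Int.lt_toNat]; omega
        omega
      have hc : (((q - p).toNat : ℕ) : ℝ) = (q : ℝ) - p := by
        have : (((q - p).toNat : ℕ) : ℤ) = q - p := Int.toNat_of_nonneg (by omega)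
        have h6 : ((((q - p).toNat : ℕ) : ℤ) : ℝ) = ((q - p : ℤ) : ℝ) := by rw [this]
        push_cast at h6
        exact h6
      intro j
      push_cast at h3
      fin_cases j
      · refine ⟨q, ?_⟩
        push_cast
        rw [hc]
        linear_combination -h3
      · refine ⟨-p, ?_⟩
        push_cast
        rw [hc]
        rw [h1]
        linear_combination h3
      · refine ⟨2 * (q - p), ?_⟩
        push_cast
        rw [hc]
        rw [h2]
        ring
    · refine ⟨(p - q).toNat * 3, ?_, ?_⟩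
      · have : 0 < (p - q).toNat := by
          rw [Int.lt_toNat]; omega
        omega
      have hc : (((p - q).toNat : ℕ) : ℝ) = (p : ℝ) - q := by
        have : (((p - q).toNat : ℕ) : ℤ) = p - q := Int.toNat_of_nonneg (by omega)
        have h6 : ((((p - q).toNat : ℕ) : ℤ) : ℝ) = ((p - q : ℤ) : ℝ) := by rw [this]
        push_cast at h6
        exact h6
      intro j
      push_cast at h3
      fin_cases j
      · refine ⟨-q, ?_⟩
        push_cast
        rw [hc]
        linear_combination h3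
      · refine ⟨p, ?_⟩
        push_cast
        rw [hc]
        rw [h1]
        linear_combination -h3
      · refine ⟨2 * (p - q), ?_⟩
        push_cast
        rw [hc]
        rw [h2]
        ring

theorem rel (hs : t 0 + t 1 = π / 3) (h2 : t 2 = 2 * π / 3)
    (hr : ¬ (∃ d : ℕ, 0 < d ∧ ∀ j, ∃ k : ℤ, t j * d = k * π)) (m : Fin 3 → ℤ) (E : ℤ)
    (h : m 0 * t 0 + m 1 * t 1 + m 2 * t 2 = E * π) :
    m 0 = 3 * E - 2 * m 2 ∧ m 1 = 3 * E - 2 * m 2 := by
  have h3 : t 2 = 2 * (t 0 + t 1) := by rw [hs, h2]; ring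
  have h4 : π = 3 * (t 0 + t 1) := by rw [hs]; ring
  have := indep hs h2 hr (m 0 + 2 * m 2 - 3 * E) (m 1 + 2 * m 2 - 3 * E) (by
    push_cast
    rw [h3] at h
    rw [show (E : ℝ) * π = E * (3 * (t 0 + t 1)) by rw [← h4]] at h
    linear_combination h)
  constructor <;> omega

theorem negOne_zpow (m E : ℤ) (h : Even (m - E)) : (-1 : ℤˣ) ^ m = (-1) ^ E :=
  (Int.negOnePow_eq_iff m E).2 h

/-- first colouring -/
theorem col1 (F : Facts n a t X th M D) (hs : t 0 + t 1 = π / 3) (h2 : t 2 = 2 * π / 3)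
    (hr : ¬ (∃ d : ℕ, 0 < d ∧ ∀ j, ∃ k : ℤ, t j * d = k * π)) :
    ∃ K : ℤ, (K : ℝ) * (a 2 - a 0 + a 1)
      = X 2 - (-1) ^ (M 1 0) * X 0 - (-1) ^ (M 0 0) * X 1 := by
  obtain ⟨K, hK⟩ := F.col ![-1, 1, 1] (by
    intro m E h
    obtain ⟨h0, -⟩ := rel hs h2 hr m E h
    simp only [Matrix.cons_val_zero, Matrix.cons_val_one, Matrix.cons_val_two, Matrix.head_cons,
      Matrix.tail_cons, one_zpow, mul_one]
    apply negOne_zpow
    rw [h0]
    exact ⟨E - m 2, by ring⟩)
  refine ⟨K, ?_⟩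
  simp at hK
  linear_combination hK

/-- second colouring -/
theorem col2 (F : Facts n a t X th M D) (hs : t 0 + t 1 = π / 3) (h2 : t 2 = 2 * π / 3)
    (hr : ¬ (∃ d : ℕ, 0 < d ∧ ∀ j, ∃ k : ℤ, t j * d = k * π)) :
    ∃ K : ℤ, (K : ℝ) * (a 2 + a 0 - a 1)
      = X 2 - (-1) ^ (M 1 1) * X 0 - (-1) ^ (M 0 1) * X 1 := by
  obtain ⟨K, hK⟩ := F.col ![1, -1, 1] (by
    intro m E h
    obtain ⟨-, h0⟩ := rel hs h2 hr m E h
    simp only [Matrix.cons_val_zero, Matrix.cons_val_one, Matrix.cons_val_two, Matrix.head_cons,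
      Matrix.tail_cons, one_zpow, mul_one, one_mul]
    apply negOne_zpow
    rw [h0]
    exact ⟨E - m 2, by ring⟩)
  refine ⟨K, ?_⟩
  simp at hK
  linear_combination hK

/-- angles from the column sums -/
theorem angles (F : Facts n a t X th M D) (h0 : M 0 0 + M 1 0 + M 2 0 = 3)
    (h1 : M 0 1 + M 1 1 + M 2 1 = 3) (h2 : M 0 2 + M 1 2 + M 2 2 = 0) :
    t 0 + t 1 = π / 3 ∧ t 2 = 2 * π / 3 := by
  have := F.th_sum
  rw [F.ang 0, F.ang 1, F.ang 2] at this
  have h0' : (M 0 0 + M 1 0 + M 2 0 : ℝ) = 3 := by exact_mod_cast h0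
  have h1' : (M 0 1 + M 1 1 + M 2 1 : ℝ) = 3 := by exact_mod_cast h1
  have h2' : (M 0 2 + M 1 2 + M 2 2 : ℝ) = 0 := by exact_mod_cast h2
  have h3 : 3 * t 0 + 3 * t 1 = π := by
    linear_combination this - t 0 * h0' - t 1 * h1' - t 2 * h2'
  have h4 := F.t_sum
  constructor
  · linarith
  · linarith

/-- trigonometry of the tile -/
theorem trig (F : Facts n a t X th M D) (hs : t 0 + t 1 = π / 3) (h2 : t 2 = 2 * π / 3) :
    ∃ κ : ℝ, 0 < κ ∧ (∀ j, Real.sin (t j) = κ * a j) ∧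
      2 * a 2 * Real.cos (t 0) = 2 * a 1 + a 0 ∧ 2 * a 2 * Real.cos (t 1) = 2 * a 0 + a 1 ∧
      a 2 ^ 2 = a 0 ^ 2 + a 0 * a 1 + a 1 ^ 2 ∧ Real.sin (t 0 + t 1) = κ * a 2 ∧
      Real.cos (t 0 + t 1) = 1 / 2 := by
  obtain ⟨κ, hκ, hj⟩ := F.sin_t
  have hc : Real.cos (t 0 + t 1) = 1 / 2 := by rw [hs]; exact Real.cos_pi_div_three
  have hsn : Real.sin (t 0 + t 1) = κ * a 2 := by
    rw [← hj 2, ← Real.sin_pi_sub]
    congr 1
    rw [hs, h2]; ring
  have e0 : Real.sin (t 0 + t 1) * Real.cos (t 0) - Real.cos (t 0 + t 1) * Real.sin (t 0)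
      = Real.sin (t 1) := by
    rw [← Real.sin_sub]; congr 1; ring
  have e1 : Real.sin (t 0 + t 1) * Real.cos (t 1) - Real.cos (t 0 + t 1) * Real.sin (t 1)
      = Real.sin (t 0) := by
    rw [← Real.sin_sub]; congr 1; ring
  rw [hsn, hc, hj 0, hj 1] at e0 e1
  have f0 : 2 * a 2 * Real.cos (t 0) = 2 * a 1 + a 0 := by
    apply mul_left_cancel₀ hκ.ne'
    linear_combination 2 * e0
  have f1 : 2 * a 2 * Real.cos (t 1) = 2 * a 0 + a 1 := by
    apply mul_left_cancel₀ hκ.ne'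
    linear_combination 2 * e1
  refine ⟨κ, hκ, hj, f0, f1, ?_, hsn, hc⟩
  have g1 := Real.sin_sq_add_cos_sq (t 0)
  have g2 := Real.sin_sq_add_cos_sq (t 0 + t 1)
  rw [hsn, hc] at g2
  rw [hj 0] at g1
  -- (κ a2)^2 = 3/4 ; (κ a0)^2 + cos^2 = 1; multiply by 4 a2^2
  have g3 : 4 * (κ * a 0)^2 * a 2 ^ 2 + (2 * a 1 + a 0)^2 = 4 * a 2 ^ 2 := by
    rw [← f0]; linear_combination 4 * a 2 ^ 2 * g1
  have g4 : (κ * a 2)^2 = 3/4 := by linarith
  have g5 : 4 * (κ * a 0)^2 * a 2 ^ 2 = 3 * a 0 ^ 2 := by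
    linear_combination 4 * a 0 ^ 2 * g4
  nlinarith [g3, g5]

/-- the number of tiles -/
theorem count (F : Facts n a t X th M D) {κ κ' : ℝ}
    (hj : ∀ j, Real.sin (t j) = κ * a j) (hk : ∀ k, Real.sin (th k) = κ' * X k) :
    κ' * (X 0 * X 1 * X 2) = n * (κ * (a 0 * a 1 * a 2)) := by
  have := F.area 0 0
  rw [hj, hk] at this
  have e1 : (0 : Fin 3) + 1 = 1 := rfl
  have e2 : (0 : Fin 3) + 2 = 2 := rfl
  rw [e1, e2] at this
  linear_combination this

end Pool.Agent.Helper13.SqN5
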